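import Pool.Agent.H84.TP.Main

/-!
For every order `m ≥ 3` the maximum `r m n` of the `j`-primitive exponents of the nonnegative
tensors of order `m` and dimension `n` which are not primitive grows exponentially in `n`.
-/

open Pool.Agent.H84.TP

namespace Pool.Agent.Results.MP_51d02f_co.ExponentialGrowth

theorem result :
    (∀ m n : ℕ, 3 ≤ m → 8 ≤ n → 4 ^ ((n - 2) / 6) < r m n) ∧
    (∀ j m n : ℕ, 1 ≤ j → 2 ^ (j - 1) + 2 ≤ m → 2 ^ j + 4 ≤ n →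
      2 ^ ((2 ^ j - j) * ((n - 2) / (2 ^ j + 2))) < r m n) ∧
    (∀ m n k g N : ℕ, 1 ≤ k → k ≤ g → k + 2 ≤ m → 1 ≤ N → (g + 2) * N + 2 ≤ n →
      (g.choose k) ^ N + N + 1 ≤ r m n) ∧
    (∀ m n : ℕ, BddAbove {k | ∃ A : Tensor m n, Nonneg A ∧ ¬ Primitive A ∧
      ∃ j, JPrimitive A j ∧ gamma A j = k}) :=
  ⟨fun _ _ hm hn => lower_three hm hn, fun j _ _ hj hm hn => lower_pow j hj hm hn,
    fun _ _ _ _ _ hk hkg hkm hN hn => lower hk hkg hkm hN hn, bddAbove⟩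

end Pool.Agent.Results.MP_51d02f_co.ExponentialGrowth
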